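import Pool.Agent.helper32.NN.Spec

/-!
# Project NN (MP_3938c6_al): module SUM
-/

set_option autoImplicit false

open Submodule

namespace Pool.Agent.NN

universe u v

theorem SUM_mm {K : Type u} {U : Type v} [Field K] [Ring U] [Algebra K U]
    {M N P Q : Submodule K U} (h1 : M ≤ P) (h2 : N ≤ Q) : M * N ≤ P * Q :=
  Submodule.mul_le.2 fun _ hm _ hn => Submodule.mul_mem_mul (h1 hm) (h2 hn)

theorem SUM_id {K : Type u} {U : Type v} [Field K] [Ring U] [Algebra K U]
    {A I J : Submodule K U} (hI : IsId A I) (hJ : IsId A J) : IsId A (I ⊔ J) := by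
  refine ⟨sup_le hI.1 hJ.1, ?_, ?_⟩
  · rw [Submodule.mul_sup]
    exact sup_le_sup hI.2.1 hJ.2.1
  · rw [Submodule.sup_mul]
    exact sup_le_sup hI.2.2 hJ.2.2

theorem SUM_le {K : Type u} {U : Type v} [Field K] [Ring U] [Algebra K U]
    {A I : Submodule K U} (hI : IsId A I) : ∀ m : ℕ, I ^ (m + 1) ≤ A := by
  intro m
  induction m with
  | zero => rw [zero_add, pow_one]; exact hI.1
  | succ m ih =>
    rw [pow_succ]
    exact (SUM_mm ih le_rfl).trans (hI.2.1.trans hI.1)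

theorem SUM_pow {K : Type u} {U : Type v} [Field K] [Ring U] [Algebra K U]
    {A I J : Submodule K U} (hI : IsId A I) (hJ : IsId A J) :
    ∀ m : ℕ, (I ⊔ J) ^ (m + 1) ≤ I ^ (m + 1) ⊔ J := by
  intro m
  induction m with
  | zero => rw [zero_add, pow_one, pow_one]
  | succ m ih =>
    rw [pow_succ (I ⊔ J) (m + 1)]
    refine (SUM_mm ih le_rfl).trans ?_
    rw [Submodule.mul_sup, Submodule.sup_mul, Submodule.sup_mul]
    have h1 : J * I ≤ J := (SUM_mm le_rfl hI.1).trans hJ.2.2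
    have h2 : I ^ (m + 1) * J ≤ J := (SUM_mm (SUM_le hI m) le_rfl).trans hJ.2.1
    have h3 : J * J ≤ J := (SUM_mm hJ.1 le_rfl).trans hJ.2.1
    refine sup_le (sup_le ?_ (h1.trans le_sup_right))
      (sup_le (h2.trans le_sup_right) (h3.trans le_sup_right))
    rw [pow_succ I (m + 1)]
    exact le_sup_left

theorem SUM_mono {K : Type u} {U : Type v} [Field K] [Ring U] [Algebra K U]
    {I J : Submodule K U} (h : I ≤ J) : ∀ n : ℕ, I ^ n ≤ J ^ n := by
  intro n
  induction n with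
  | zero => rw [pow_zero, pow_zero]
  | succ n ih =>
    rw [pow_succ, pow_succ]
    exact SUM_mm ih h

/-- **SUM.** -/
theorem SUM : SUM_stmt.{u, v} := by
  intro K U _ _ _ A I J hA hI hJ ⟨m, hm⟩ ⟨n, hn⟩
  refine ⟨SUM_id hI hJ, (m + 1) * n, ?_⟩
  rw [pow_mul]
  have h1 : (I ⊔ J) ^ (m + 1) ≤ J := by
    refine (SUM_pow hI hJ m).trans ?_
    rw [pow_succ, hm, Submodule.bot_mul, bot_sup_eq]
  rw [eq_bot_iff, ← hn]
  exact SUM_mono h1 n

end Pool.Agent.NN
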